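import Pool.Agent.H82.RP.TD
import Pool.Agent.H18.MTP.ZP

/-!
# Row ZPL: pairs of primes at distances up to `A log n`
-/

set_option autoImplicit false

open Finset Filter Topology

namespace Pool.Agent.H60.RP

open Pool.Agent.H31.MP Pool.Agent.H82.RP
open Pool.Agent.H21.PI (D f one_le_f D_odd D_even)
open Pool.Agent.H18.MTP (sum_ip D_bound sum_even_f sum_even_sq)

theorem pf_ZPL : T_ZPL := by
  intro A hA
  set c := Pool.Agent.H75.PS.CC with hc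
  have hc0 : 0 ≤ c := Pool.Agent.H75.PS.CC_nonneg
  refine ⟨1 + 24300 * c ^ 2 * (A + 1), by positivity, ?_⟩
  intro τ hτ hτ1
  -- the growth conditions
  have e2 : ∀ᶠ n : ℕ in atTop, max 2 (1 / τ) ≤ Real.log n :=
    Pool.Agent.H21.PI.log_tendsto.eventually_ge_atTop _
  have e3 : ∀ᶠ n : ℕ in atTop, (Real.log n) ^ 2 ≤ (n:ℝ) ^ (1 / 2 : ℝ) := by
    have h1 := (isLittleO_log_rpow_atTop (show (0:ℝ) < 1 / 4 by norm_num)).bound
      (show (0:ℝ) < 1 by norm_num)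
    have h2 := (tendsto_natCast_atTop_atTop (R := ℝ)).eventually h1
    filter_upwards [h2, eventually_ge_atTop 1] with n hn hn1
    have hn0 : (0:ℝ) < n := by exact_mod_cast (by omega : 0 < n)
    have hl : 0 ≤ Real.log n := Real.log_nonneg (by exact_mod_cast hn1)
    rw [Real.norm_eq_abs, Real.norm_eq_abs, abs_of_nonneg hl,
      abs_of_nonneg (by positivity), one_mul] at hn
    calc (Real.log n) ^ 2 ≤ ((n:ℝ) ^ (1 / 4 : ℝ)) ^ 2 := by gcongr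
      _ = (n:ℝ) ^ (1 / 2 : ℝ) := by
        rw [← Real.rpow_natCast, ← Real.rpow_mul hn0.le]
        norm_num
  have e4 : ∀ᶠ n : ℕ in atTop, (6:ℝ) ≤ (n:ℝ) ^ (1 / 10 : ℝ) :=
    ((tendsto_rpow_atTop (show (0:ℝ) < 1 / 10 by norm_num)).comp
      (tendsto_natCast_atTop_atTop (R := ℝ))).eventually_ge_atTop 6
  obtain ⟨n₀, hn₀⟩ := eventually_atTop.1 (e2.and (e3.and (e4.and (eventually_ge_atTop 1))))
  refine ⟨n₀, fun n hn a ha1 ha3 => ?_⟩
  obtain ⟨h2, h3, h4, hn1⟩ := hn₀ n hn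
  have hn0 : (0:ℝ) < n := by exact_mod_cast (by omega : 0 < n)
  have hn1' : (1:ℝ) ≤ n := by exact_mod_cast hn1
  set L := Real.log n with hLdef
  have hL2 : 2 ≤ L := (le_max_left _ _).trans h2
  have hLτ : 1 / τ ≤ L := (le_max_right _ _).trans h2
  have hL0 : 0 < L := by linarith
  have hτL : 1 ≤ τ * L := by
    rw [div_le_iff₀ hτ] at hLτ; linarith
  set z := ⌊(n:ℝ) ^ (1 / 30 : ℝ)⌋₊ with hz
  have hzr : (1:ℝ) ≤ (n:ℝ) ^ (1 / 30 : ℝ) := Real.one_le_rpow hn1' (by norm_num)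
  have hz1 : 1 ≤ z := Nat.le_floor (by exact_mod_cast hzr)
  have hzle : (z:ℝ) ≤ (n:ℝ) ^ (1 / 30 : ℝ) := Nat.floor_le (by positivity)
  have hzlt : (n:ℝ) ^ (1 / 30 : ℝ) < z + 1 := Nat.lt_floor_add_one _
  have hlz : L / 30 ≤ Real.log (z + 1) := by
    have : Real.log ((n:ℝ) ^ (1 / 30 : ℝ)) = L / 30 := by
      rw [Real.log_rpow hn0]
      ring
    rw [← this]
    exact Real.log_le_log (by positivity) hzlt.le
  have b1 : (z:ℝ) ^ 12 ≤ (n:ℝ) ^ (2 / 5 : ℝ) := by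
    calc (z:ℝ) ^ 12 ≤ ((n:ℝ) ^ (1 / 30 : ℝ)) ^ 12 := by gcongr
      _ = (n:ℝ) ^ (2 / 5 : ℝ) := by
        rw [← Real.rpow_natCast, ← Real.rpow_mul hn0.le]
        norm_num
  have b1' : (1:ℝ) ≤ (n:ℝ) ^ (2 / 5 : ℝ) := Real.one_le_rpow hn1' (by norm_num)
  set W := ⌊τ * L⌋₊ with hW
  set T := ⌊(A + 1) / 2 * L⌋₊ with hT
  have hWle : (W : ℝ) ≤ τ * L := Nat.floor_le (by positivity)
  have hTle : (T : ℝ) ≤ (A + 1) / 2 * L := Nat.floor_le (by positivity)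
  have hbT : (a + W) / 2 ≤ T := by
    refine Nat.le_floor ?_
    have h5 : (((a + W) / 2 : ℕ) : ℝ) ≤ ((a + W : ℕ) : ℝ) / 2 := Nat.cast_div_le
    refine h5.trans ?_
    push_cast
    have h6 : τ * L ≤ L := by nlinarith
    linarith
  have hcard : ((Icc a (a + W)).card : ℝ) ≤ 2 * (τ * L) := by
    rw [Nat.card_Icc]
    have h5 : a + W + 1 - a = W + 1 := by omega
    rw [h5]
    push_cast
    linarith
  -- the sum
  have hsum : ∑ s ∈ Icc a (a + W), ∑ p ∈ range (2 * n + 1), ip p * ip (p + s) ≤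
      ((Icc a (a + W)).card : ℝ) * (1 + 2 * (z : ℝ) ^ 12) +
      9 * (2 * n + 1 : ℕ) / (Real.log (z + 1)) ^ 2 *
        ∑ s ∈ Icc a (a + W), (if Even s then f (s / 2) ^ 2 else 0) := by
    rw [mul_sum, ← nsmul_eq_mul, ← sum_const, ← sum_add_distrib]
    refine sum_le_sum fun s hs => ?_
    rw [sum_ip]
    exact D_bound _ s z hz1 (ha1.trans (mem_Icc.1 hs).1)
  refine hsum.trans ?_
  set S := ∑ s ∈ Icc a (a + W), (if Even s then f (s / 2) ^ 2 else 0) with hS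
  have hS0 : 0 ≤ S := sum_nonneg fun s _ => by
    split_ifs
    · positivity
    · exact le_rfl
  have hsτ : 0 ≤ √τ := Real.sqrt_nonneg _
  have hsτ2 : √τ ^ 2 = τ := Real.sq_sqrt hτ.le
  have hSle : S ≤ (A + 1) * c ^ 2 * √τ * L := by
    have h5 := sum_even_sq a (a + W) T ha1 hbT
    rw [← hS] at h5
    have h7 : A + 1 ≤ (A + 1) ^ 2 := by nlinarith
    have h6 : S ^ 2 ≤ ((A + 1) * c ^ 2 * √τ * L) ^ 2 := by
      calc S ^ 2 ≤ ((Icc a (a + W)).card : ℝ) * (c ^ 4 * T) := h5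
        _ ≤ (2 * (τ * L)) * (c ^ 4 * ((A + 1) / 2 * L)) := by gcongr
        _ = (A + 1) * (c ^ 4 * τ * L ^ 2) := by ring
        _ ≤ (A + 1) ^ 2 * (c ^ 4 * τ * L ^ 2) := by gcongr
        _ = ((A + 1) * c ^ 2 * √τ * L) ^ 2 := by rw [mul_pow, mul_pow, hsτ2]; ring
    exact (abs_le_of_sq_le_sq' h6 (by positivity)).2
  have hfac : 9 * ((2 * n + 1 : ℕ) : ℝ) / (Real.log (z + 1)) ^ 2 ≤ 24300 * n / L ^ 2 := by
    calc 9 * ((2 * n + 1 : ℕ) : ℝ) / (Real.log (z + 1)) ^ 2 ≤ 9 * (3 * n) / (L / 30) ^ 2 := by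
          gcongr
          push_cast; linarith
      _ = 24300 * n / L ^ 2 := by field_simp; ring
  have hmain : 9 * ((2 * n + 1 : ℕ) : ℝ) / (Real.log (z + 1)) ^ 2 * S ≤
      24300 * c ^ 2 * (A + 1) * √τ * n / L := by
    calc _ ≤ 24300 * n / L ^ 2 * ((A + 1) * c ^ 2 * √τ * L) := by gcongr
      _ = 24300 * c ^ 2 * (A + 1) * √τ * n / L := by field_simp
  have hτs : τ ≤ √τ := by
    have h5 : √τ ≤ 1 := Real.sqrt_le_one.2 hτ1
    nlinarith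
  have herr : ((Icc a (a + W)).card : ℝ) * (1 + 2 * (z : ℝ) ^ 12) ≤ √τ * n / L := by
    have h5 : 1 + 2 * (z : ℝ) ^ 12 ≤ 3 * (n:ℝ) ^ (2 / 5 : ℝ) := by linarith
    rw [le_div_iff₀ hL0]
    calc ((Icc a (a + W)).card : ℝ) * (1 + 2 * (z : ℝ) ^ 12) * L
        ≤ (2 * (√τ * L)) * (3 * (n:ℝ) ^ (2 / 5 : ℝ)) * L := by
          have h6 : ((Icc a (a + W)).card : ℝ) ≤ 2 * (√τ * L) :=
            hcard.trans (by gcongr)
          gcongr
      _ = 6 * √τ * (L ^ 2 * (n:ℝ) ^ (2 / 5 : ℝ)) := by ring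
      _ ≤ 6 * √τ * ((n:ℝ) ^ (1 / 2 : ℝ) * (n:ℝ) ^ (2 / 5 : ℝ)) := by gcongr
      _ = √τ * (6 * (n:ℝ) ^ (9 / 10 : ℝ)) := by
          rw [← Real.rpow_add hn0]; norm_num; ring
      _ ≤ √τ * ((n:ℝ) ^ (1 / 10 : ℝ) * (n:ℝ) ^ (9 / 10 : ℝ)) := by gcongr
      _ = √τ * n := by
          rw [← Real.rpow_add hn0]; norm_num
  calc _ ≤ √τ * n / L + 24300 * c ^ 2 * (A + 1) * √τ * n / L := add_le_add herr hmain
    _ = (1 + 24300 * c ^ 2 * (A + 1)) * √τ * n / L := by ring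

end Pool.Agent.H60.RP
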